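import Pool.Agent.MP_ed9623_an.H77.SpecX

/-! Uniqueness when the outer boundary is a circle. -/

open MeasureTheory Filter Topology Set
open scoped ContDiff InnerProductSpace

namespace Pool.Agent.MP_ed9623_an.H77

open H64

namespace Circ

theorem le_of_An {ρ : P → ℝ} (hρ : Continuous ρ) {c x : P} {r R : ℝ} (r0 : 0 < r) (rR : r < R)
    (hx : qc c x = r ^ 2) (h : An c r R ⊆ {x | ρ x < 0}) : ρ x ≤ 0 := by
  have c1 : Continuous fun s : ℝ => c + s • (x - c) := by fun_prop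
  have t1 : Tendsto (fun s : ℝ => ρ (c + s • (x - c))) (𝓝[>] 1) (𝓝 (ρ x)) := by
    have := (hρ.comp c1).tendsto 1
    simp only [Function.comp_def, one_smul, add_sub_cancel] at this
    exact this.mono_left nhdsWithin_le_nhds
  refine le_of_tendsto t1 ?_
  filter_upwards [Ioo_mem_nhdsGT ((one_lt_div r0).2 rR)] with s hs
  have e : qc c (c + s • (x - c)) = (s * r) ^ 2 := by
    simp only [qc, Prod.fst_add, Prod.snd_add, Prod.smul_fst, Prod.smul_snd, Prod.fst_sub,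
      Prod.snd_sub, smul_eq_mul] at hx ⊢
    linear_combination s ^ 2 * hx
  have a1 : r < s * r := by nlinarith [hs.1]
  have a2 : s * r < R := (lt_div_iff₀ r0).1 hs.2
  exact le_of_lt (h ⟨by rw [e]; gcongr, by rw [e]; gcongr; linarith⟩)

end Circ

theorem rowCirc : OfCirc := by
  rintro hCh hC0 hUc hTri hGl hNe hSw hRA hRB hHy hSm hD1 hD2 hAn ρ g R a w hρ hreg hpre
    ⟨c, R₀, R0, hc⟩ hP hTU hY
  by_contra hn
  push Not at hn
  obtain ⟨hw, t₀, -, ha⟩ := hn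
  have hΩ : IsOpen {x | ρ x < 0} := isOpen_lt hρ.continuous continuous_const
  have h1 : ∀ x, ρ x < 0 → qc c x < R₀ ^ 2 := fun x => (hc x).1
  have h2 : ∀ x, qc c x = R₀ ^ 2 → ρ x = 0 := fun x => (hc x).2
  obtain ⟨n1, n2⟩ := hNe.2.2 ρ c R₀ hρ hreg R0 h1 h2
  let Gd : Set P := {x | ∃ ε : ℝ, 0 < ε ∧ (∀ t j, Van (Metric.ball x ε) (vl (a t) j)) ∧
    ∀ y ∈ Metric.ball x ε, qc c y < R₀ ^ 2 → ρ y < 0}
  have oG : IsOpen Gd := by
    refine Metric.isOpen_iff.2 fun x ⟨ε, e0, e1, e2⟩ => ⟨ε, e0, fun y hy => ?_⟩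
    obtain ⟨δ, d0, hδ⟩ := Metric.isOpen_iff.1 Metric.isOpen_ball y hy
    exact ⟨δ, d0, fun t j => (e1 t j).mono hδ, fun z hz => e2 z (hδ hz)⟩
  have mk : ∀ x ε, 0 < ε → (∀ t j, Van (Metric.ball x ε) (vl (a t) j)) →
      (∀ᶠ y in 𝓝 x, qc c y < R₀ ^ 2 → ρ y < 0) → x ∈ Gd := fun x ε e0 e1 e2 => by
    obtain ⟨δ, d0, hδ⟩ := Metric.mem_nhds_iff.1 e2
    exact ⟨min ε δ, lt_min e0 d0, fun t j => (e1 t j).mono (Metric.ball_subset_ball (min_le_left _ _)),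
      fun y hy => hδ (Metric.ball_subset_ball (min_le_right _ _) hy)⟩
  have cG : ∀ x, qc c x = R₀ ^ 2 → x ∈ Gd := fun x hx => by
    obtain ⟨τ, γ, r, c1, c2, -⟩ := hCh ρ x hρ (h2 x hx) (n2 x hx).1
    obtain ⟨I, ε, i1, i2, i3, e0, h | h⟩ := hTri _ x τ γ r R (-1) 0 g a w hΩ c1 c2 hP (by norm_num)
    · obtain ⟨t, ht⟩ := i2
      exact absurd (hUc _ x τ γ r R ε g a w I hΩ hpre c1 hP i1 e0 h t ht) (hw t (i3 ht).2.le)
    · exact mk x ε e0 (hTU _ I i1 i2 h) (n2 x hx).2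
  have q0 : qc c c = 0 := by simp [qc]
  have qn : ∀ x, 0 ≤ qc c x := fun x => by unfold qc; positivity
  obtain ⟨x₁, k1, k2⟩ := (((isCompact_disc c R₀).diff oG).insert c).exists_isMaxOn
    (insert_nonempty _ _) (sm_qc c).continuous.continuousOn
  obtain ⟨r, r0, hr⟩ : ∃ r : ℝ, 0 ≤ r ∧ qc c x₁ = r ^ 2 :=
    ⟨√(qc c x₁), Real.sqrt_nonneg _, (Real.sq_sqrt (qn _)).symm⟩
  have rR2 : r ^ 2 < R₀ ^ 2 := by
    rw [← hr]
    rcases k1 with e | e
    · rw [e, q0]; positivity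
    · exact lt_of_le_of_ne e.1 fun h => e.2 (cG _ h)
  have rR : r < R₀ := lt_of_pow_lt_pow_left₀ 2 R0.le rR2
  have aG : An c r R₀ ⊆ Gd := fun x hx => by
    by_contra h
    have : qc c x ≤ qc c x₁ := k2 (Or.inr ⟨hx.2.le, h⟩)
    rw [hr] at this
    exact this.not_gt hx.1
  have hsub : An c r R₀ ⊆ {x | ρ x < 0} := fun x hx =>
    let ⟨_, e0, _, e2⟩ := aG hx
    e2 x (Metric.mem_ball_self e0) hx.2
  have hva : ∀ t j, Van (An c r R₀) (vl (a t) j) := fun t j => Van.of_loc fun x hx =>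
    let ⟨_, e0, e1, _⟩ := aG hx
    ⟨_, Metric.ball_mem_nhds x e0, e1 t j⟩
  rcases r0.eq_or_lt with e | r0
  · refine ha (eq_zero_of_van (hP.ma t₀).1 fun j =>
      ((hva t₀ j).union (Van.of_null (measure_singleton c) _)).mono fun x hx => ?_)
    rcases (qn x).eq_or_lt with h | h
    · unfold qc at h
      exact Or.inr (Prod.ext (by nlinarith [sq_nonneg (x.1 - c.1), sq_nonneg (x.2 - c.2)])
        (by nlinarith [sq_nonneg (x.1 - c.1), sq_nonneg (x.2 - c.2)]))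
    · exact Or.inl ⟨by rw [← e]; simpa using h, h1 x hx⟩
  have x1G : x₁ ∉ Gd := by
    rcases k1 with e | e
    · rw [e, q0] at hr
      exact absurd hr (pow_pos r0 2).ne
    · exact e.2
  have oO : IsOpen {x | r ^ 2 < qc c x} := isOpen_lt continuous_const (sm_qc c).continuous
  have hx₀ : qc c (c.1 + R₀, c.2) = R₀ ^ 2 := by simp [qc]
  have xO : (c.1 + R₀, c.2) ∈ {x | r ^ 2 < qc c x} := rR2.trans_eq hx₀.symm
  have eO : {x | ρ x = 0} ∩ {x | r ^ 2 < qc c x} = {x | qc c x = R₀ ^ 2} :=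
    Subset.antisymm (fun x hx => (n1 x hx.1).eq_or_lt.resolve_right fun h =>
      (hsub ⟨hx.2, h⟩).ne hx.1) fun x hx => ⟨h2 x hx, rR2.trans_eq hx.symm⟩
  obtain ⟨ζ₀, hζ⟩ := hGl ρ _ _ hρ hreg oO (eO ▸ hNe.1 c R₀) (h2 _ hx₀) xO
  have hrd := hSw _ g R r R₀ a w c ζ₀ hΩ r0 rR h1 hsub hP hζ hva
  have hrot := fun t => hRA c r R₀ (vl (w t)) (gj (w t)) (hP.fl t).vw (hrd t)
  have hHz := fun t => (hP.fl t).heat hsub (hva t)
  have m2 : ∀ t j, M2 (vl (deriv w t) j) := fun t j => Lp.memLp _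
  have hD : Dense {t | R₀ ^ 2 * ∫ x in An c r R₀, ∑ j, vl (deriv w t) j x * vl (w t) j x ≤
      -∫ x in An c r R₀, mm (vl (w t)) x} := by
    rcases (Circ.le_of_An hρ.continuous r0 rR hr hsub).eq_or_lt with e | e
    · obtain ⟨τ, γ, r', c1, -⟩ := hC0 ρ x₁ hρ e (hreg _ e)
      refine dense_univ.mono fun t _ => hD2 _ c r R₀ (w t) _ r0 rR h1 (hY t) (m2 t) (hHz t)
        fun δ d0 => ?_
      obtain ⟨η, e0, hη⟩ := hSm _ x₁ τ γ r' R _ _ _ _ _ _ c1 (hP.fx t) δ d0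
      exact hRB c x₁ r R₀ η _ (fun v => v ≤ δ) r0 rR hr e0 (fun τ hτ => (hrot t τ hτ).1) hη
    · let J : ℕ → Set ℝ := fun n => {t | ∀ j, Van (Metric.ball x₁ (1 / ((n : ℝ) + 1))) (vl (a t) j)}
      have cJ : ∀ n, IsClosed (J n) := fun n => by
        have : J n = ⋂ j, a ⁻¹' (VanS (Metric.ball x₁ (1 / ((n : ℝ) + 1))) (j, none)) :=
          Set.ext fun t => ⟨fun h => mem_iInter.2 h, fun h j => mem_iInter.1 h j⟩
        rw [this]
        exact isClosed_iInter fun j => (isClosed_VanS _ _).preimage hP.sa.continuous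
      have dJ : ∀ n, Dense (J n)ᶜ := fun n => interior_eq_empty_iff_dense_compl.1 (by
        by_contra h
        exact x1G (mk x₁ _ Nat.one_div_pos_of_nat (hTU _ _ isOpen_interior
          (nonempty_iff_ne_empty.2 h) fun t ht => interior_subset ht)
          (mem_of_superset (hΩ.mem_nhds e) fun y hy _ => hy)))
      refine (dense_iInter_of_isOpen (fun n => (cJ n).isOpen_compl) dJ).mono fun t ht => ?_
      rcases hHy _ c x₁ r R₀ R _ _ _ _ _ _ hΩ e r0 rR hr (hP.fx t) (hva t) (hrd t) with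
        ⟨ε, e0, h⟩ | h
      · obtain ⟨n, hn⟩ := exists_nat_one_div_lt e0
        exact absurd (fun j => (h j).mono (Metric.ball_subset_ball hn.le)) (mem_iInter.1 ht n)
      · refine hD1 _ c r R₀ (w t) _ r0 rR h1 (hY t) (m2 t) (hHz t) fun δ d0 => ?_
        obtain ⟨η, e0, hη⟩ := h δ d0
        exact hRB c x₁ r R₀ η _ (fun v => -δ ≤ v) r0 rR hr e0 (fun τ hτ => (hrot t τ hτ).2) hη
  have hvw := hAn _ (R₀ ^ 2) R w (isOpen_An c r R₀).measurableSet (by positivity) hP.sw hP.nw hD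
  obtain ⟨ε, e0, hε⟩ := Metric.isOpen_iff.1 oO _ xO
  obtain ⟨τ, γ, r', c1, -⟩ := hC0 ρ _ hρ (h2 _ hx₀) (hreg _ (h2 _ hx₀))
  refine hw 0 le_rfl (hUc _ _ τ γ r' R ε g a w univ hΩ hpre c1 hP isOpen_univ e0
    (hP.e1_van Metric.isOpen_ball isOpen_univ fun t _ j =>
      ((hvw t j).union ((hP.fl t).nw j)).mono fun y hy => ?_) 0 (mem_univ _))
  by_cases h : ρ y < 0
  · exact Or.inl ⟨hε hy, h1 y h⟩
  · exact Or.inr h

end Pool.Agent.MP_ed9623_an.H77
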