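import Pool.Agent.MP_ed9623_an.H77.SpecA
import Pool.Agent.MP_ed9623_an.H64.Mane

/-! Squeezing and covering for the complete bounded solutions. -/

open MeasureTheory Filter Topology Set
open scoped ContDiff InnerProductSpace

namespace Pool.Agent.MP_ed9623_an.H77

namespace Cov

theorem cs {f : ℝ → ℝ} (hf : Continuous f) {a b : ℝ} (h : a ≤ b) :
    (∫ x in a..b, f x) ^ 2 ≤ (b - a) * ∫ x in a..b, f x ^ 2 := by
  rcases h.eq_or_lt with rfl | h
  · simp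
  have hp : 0 < b - a := sub_pos.2 h
  have key : ∀ m : ℝ, 0 ≤ (∫ x in a..b, f x ^ 2) - 2 * m * (∫ x in a..b, f x) + m ^ 2 * (b - a) := by
    intro m
    have h0 : 0 ≤ ∫ x in a..b, (f x ^ 2 - 2 * m * f x + m ^ 2) :=
      intervalIntegral.integral_nonneg h.le fun x _ => by nlinarith [sq_nonneg (f x - m)]
    have i1 : IntervalIntegrable (fun x => f x ^ 2) volume a b := (hf.pow 2).intervalIntegrable _ _
    have i2 : IntervalIntegrable (fun x => 2 * m * f x) volume a b :=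
      (continuous_const.mul hf).intervalIntegrable _ _
    rw [intervalIntegral.integral_add (i1.sub i2) intervalIntegrable_const,
      intervalIntegral.integral_sub i1 i2, intervalIntegral.integral_const_mul,
      intervalIntegral.integral_const, smul_eq_mul] at h0
    linarith
  have h1 := mul_nonneg hp.le (key ((∫ x in a..b, f x) / (b - a)))
  have e : (b - a) * ((∫ x in a..b, f x ^ 2) - 2 * ((∫ x in a..b, f x) / (b - a)) *
      (∫ x in a..b, f x) + ((∫ x in a..b, f x) / (b - a)) ^ 2 * (b - a)) =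
      (b - a) * (∫ x in a..b, f x ^ 2) - (∫ x in a..b, f x) ^ 2 := by
    field_simp
    ring
  linarith

variable {H V : Type} [NormedAddCommGroup H] [InnerProductSpace ℝ H] [CompleteSpace H]
  [NormedAddCommGroup V] [InnerProductSpace ℝ V] [CompleteSpace V]
  {S : St H V} {R : ℝ} {U W : ℝ → V}

theorem cont (hU : Bd S R univ U) : Continuous U := continuousOn_univ.1 hU.1.1.continuousOn

theorem G_lip (S : St H V) {u v : V} (hu : ‖u‖ ≤ R) (hv : ‖v‖ ≤ R) :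
    ‖S.G u - S.G v‖ ≤ (‖S.A‖ + 2 * (‖S.B‖ * R)) * ‖u - v‖ := by
  rw [S.G_sub, norm_neg]
  have h1 := S.A.le_opNorm (u - v)
  have h2 := S.B.le_opNorm₂ (u - v) u
  have h3 := S.B.le_opNorm₂ v (u - v)
  have h4 := norm_add₃_le (a := S.A (u - v)) (b := S.B (u - v) u) (c := S.B v (u - v))
  have h5 := mul_le_mul_of_nonneg_left hu (mul_nonneg (norm_nonneg S.B) (norm_nonneg (u - v)))
  have h6 := mul_le_mul_of_nonneg_left hv (mul_nonneg (norm_nonneg S.B) (norm_nonneg (u - v)))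
  nlinarith

theorem grid (hU : Bd S R univ U) (hW : Bd S R univ W) (v : V) {a b : ℝ} (h1 : -1 ≤ a)
    (hab : a ≤ b) (h2 : b ≤ 0) :
    (⟪S.ι v, S.ι (U b - W b)⟫_ℝ - ⟪S.ι v, S.ι (U a - W a)⟫_ℝ) ^ 2 ≤
      (b - a) * ((‖v‖ * (‖S.A‖ + 2 * (‖S.B‖ * R))) ^ 2 * ∫ r in (-1 : ℝ)..0, ‖U r - W r‖ ^ 2) := by
  have cU := cont hU
  have cW := cont hW
  have cf : Continuous fun r => ⟪v, S.G (U r) - S.G (W r)⟫_ℝ :=
    continuous_const.inner ((S.cont_G.comp cU).sub (S.cont_G.comp cW))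
  have e : ∫ r in a..b, ⟪v, S.G (U r) - S.G (W r)⟫_ℝ =
      ⟪S.ι v, S.ι (U b - W b)⟫_ℝ - ⟪S.ι v, S.ι (U a - W a)⟫_ℝ := by
    refine intervalIntegral.integral_eq_sub_of_hasDerivAt
      (f := fun r => ⟪S.ι v, S.ι (U r - W r)⟫_ℝ) (fun r _ => ?_) (cf.intervalIntegrable _ _)
    have d1 := S.ι.hasFDerivAt.comp_hasDerivAt r
      ((hU.1.hasDerivAt isOpen_univ (mem_univ r)).sub (hW.1.hasDerivAt isOpen_univ (mem_univ r)))
    have d2 := (innerSL ℝ (S.ι v)).hasFDerivAt.comp_hasDerivAt r d1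
    have e1 : ⟪v, S.G (U r) - S.G (W r)⟫_ℝ =
        innerSL ℝ (S.ι v) (S.ι (deriv U r - deriv W r)) := by
      rw [← hU.1.2 r (mem_univ r), ← hW.1.2 r (mem_univ r), ← map_sub, ← map_sub,
        real_inner_comm, adj_inner, real_inner_comm]
      rfl
    rw [e1]
    exact d2
  rw [← e]
  refine (cs cf hab).trans (mul_le_mul_of_nonneg_left ?_ (sub_nonneg.2 hab))
  have c2 : Continuous fun r => (‖v‖ * (‖S.A‖ + 2 * (‖S.B‖ * R))) ^ 2 * ‖U r - W r‖ ^ 2 := by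
    fun_prop
  rw [← intervalIntegral.integral_const_mul]
  refine le_trans (intervalIntegral.integral_mono_on hab ((cf.pow 2).intervalIntegrable _ _)
    (c2.intervalIntegrable _ _) fun r _ => ?_)
    (intervalIntegral.integral_mono_interval h1 hab h2
      (Eventually.of_forall fun r => by positivity) (c2.intervalIntegrable _ _))
  rw [← mul_pow, ← sq_abs]
  refine pow_le_pow_left₀ (abs_nonneg _) ((abs_real_inner_le_norm _ _).trans ?_) 2
  rw [mul_assoc]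
  exact mul_le_mul_of_nonneg_left (G_lip S (hU.2 r (mem_univ r)).1 (hW.2 r (mem_univ r)).1)
    (norm_nonneg _)

/-- The forward estimate on the real line. -/
def Fw (S : St H V) (K : ℝ) (U W : ℝ → V) : Prop := ∀ s t : ℝ, s ≤ t →
  Real.exp (-(K * (t - s))) * ‖S.ι (U t - W t)‖ ^ 2
    + S.c * ∫ r in s..t, Real.exp (-(K * (r - s))) * ‖U r - W r‖ ^ 2 ≤ ‖S.ι (U s - W s)‖ ^ 2

theorem fw1 {K : ℝ} (hK : 0 ≤ K) (h : Fw S K U W) {s t : ℝ} (hst : s ≤ t) (h1 : t - s ≤ 1) :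
    ‖S.ι (U t - W t)‖ ^ 2 ≤ Real.exp K * ‖S.ι (U s - W s)‖ ^ 2 := by
  have a := h s t hst
  have b : 0 ≤ S.c * ∫ r in s..t, Real.exp (-(K * (r - s))) * ‖U r - W r‖ ^ 2 :=
    mul_nonneg S.c0.le (intervalIntegral.integral_nonneg hst fun r _ => by positivity)
  have c : 1 ≤ Real.exp K * Real.exp (-(K * (t - s))) := by
    rw [← Real.exp_add]
    exact Real.one_le_exp (by nlinarith)
  have d := mul_le_mul_of_nonneg_right c (sq_nonneg ‖S.ι (U t - W t)‖)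
  have e := mul_le_mul_of_nonneg_left
    (by linarith : Real.exp (-(K * (t - s))) * ‖S.ι (U t - W t)‖ ^ 2 ≤ ‖S.ι (U s - W s)‖ ^ 2)
    (Real.exp_pos K).le
  linarith

theorem fw2 {K : ℝ} (hK : 0 ≤ K) (cU : Continuous U) (cW : Continuous W) (h : Fw S K U W) :
    S.c * ∫ r in (-1 : ℝ)..0, ‖U r - W r‖ ^ 2 ≤ Real.exp K * ‖S.ι (U (-1) - W (-1))‖ ^ 2 := by
  have a := h (-1) 0 (by norm_num)
  have b : 0 ≤ Real.exp (-(K * (0 - -1))) * ‖S.ι (U 0 - W 0)‖ ^ 2 := by positivity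
  have c : ∫ r in (-1 : ℝ)..0, ‖U r - W r‖ ^ 2 ≤
      Real.exp K * ∫ r in (-1 : ℝ)..0, Real.exp (-(K * (r - -1))) * ‖U r - W r‖ ^ 2 := by
    rw [← intervalIntegral.integral_const_mul]
    refine intervalIntegral.integral_mono_on (by norm_num)
      (Continuous.intervalIntegrable (by fun_prop) _ _)
      (Continuous.intervalIntegrable (by fun_prop) _ _) fun r hr => ?_
    have c : 1 ≤ Real.exp K * Real.exp (-(K * (r - -1))) := by
      rw [← Real.exp_add]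
      exact Real.one_le_exp (by nlinarith [hr.2])
    have d := mul_le_mul_of_nonneg_right c (sq_nonneg ‖U r - W r‖)
    linarith
  have d := mul_le_mul_of_nonneg_left c S.c0.le
  have e := mul_le_mul_of_nonneg_left (by linarith : S.c * ∫ r in (-1 : ℝ)..0,
    Real.exp (-(K * (r - -1))) * ‖U r - W r‖ ^ 2 ≤ ‖S.ι (U (-1) - W (-1))‖ ^ 2) (Real.exp_pos K).le
  linarith

theorem mean {f : ℝ → ℝ} (hf : Continuous f) :
    ∃ r ∈ Icc (-1 : ℝ) 0, f r ≤ ∫ x in (-1 : ℝ)..0, f x := by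
  obtain ⟨r, hr, hm⟩ := isCompact_Icc.exists_isMinOn (nonempty_Icc.2 (by norm_num : (-1 : ℝ) ≤ 0))
    hf.continuousOn
  refine ⟨r, hr, ?_⟩
  have := intervalIntegral.integral_mono_on (μ := volume) (by norm_num : (-1 : ℝ) ≤ 0)
    (intervalIntegrable_const (c := f r)) (hf.intervalIntegrable _ _) fun x hx => hm hx
  simpa using this

/-- The grid point. -/
noncomputable def gp (M : ℕ) (m : Fin (M + 2)) : ℝ := -1 + (m : ℝ) / (M + 1)

theorem gp_mem (M : ℕ) (m : Fin (M + 2)) : gp M m ∈ Icc (-1 : ℝ) 0 := by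
  have h1 : (0 : ℝ) ≤ (m : ℝ) / (M + 1) := by positivity
  have h2 : (m : ℝ) / (M + 1) ≤ 1 := by
    rw [div_le_one (by positivity)]
    exact_mod_cast Nat.lt_succ_iff.1 m.2
  exact ⟨by unfold gp; linarith, by unfold gp; linarith⟩

theorem gp_near (M : ℕ) {r : ℝ} (hr : r ∈ Icc (-1 : ℝ) 0) :
    ∃ m, gp M m ≤ r ∧ (M + 1) * (r - gp M m) ≤ 1 := by
  have hp : (0 : ℝ) < M + 1 := by positivity
  have h0 : 0 ≤ (r + 1) * (M + 1) := mul_nonneg (by linarith [hr.1]) hp.le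
  have h1 : ⌊(r + 1) * (M + 1)⌋₊ ≤ M + 1 := Nat.floor_le_of_le (by
    push_cast
    nlinarith [hr.2])
  have a1 := Nat.floor_le h0
  have a2 := Nat.lt_floor_add_one ((r + 1) * (M + 1))
  refine ⟨⟨⌊(r + 1) * (M + 1)⌋₊, by omega⟩, ?_, ?_⟩
  · unfold gp
    rw [← le_sub_iff_add_le', div_le_iff₀ hp]
    simpa using a1
  · unfold gp
    have e : ((M : ℝ) + 1) * (r - (-1 + (⌊(r + 1) * (M + 1)⌋₊ : ℝ) / (M + 1))) =
        (r + 1) * (M + 1) - (⌊(r + 1) * (M + 1)⌋₊ : ℝ) := by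
      field_simp
      ring
    simp only [e]
    linarith

theorem squeeze {K A : ℝ} (hK : 0 ≤ K) (hA : 0 ≤ A) {n M : ℕ} (v : Fin n → V)
    (hE : ∀ u, ‖S.ι u‖ ^ 2 ≤ S.c / (8 * Real.exp K ^ 2) * ‖u‖ ^ 2 +
      A * ∑ i, ⟪S.ι (v i), S.ι u⟫_ℝ ^ 2)
    (hM : 16 * Real.exp K ^ 2 * A * (∑ i, (‖v i‖ * (‖S.A‖ + 2 * (‖S.B‖ * R))) ^ 2) / S.c ≤ M)
    (hU : Bd S R univ U) (hW : Bd S R univ W) (h : Fw S K U W) :
    ‖S.ι (U 0 - W 0)‖ ^ 2 ≤ 1 / 4 * ‖S.ι (U (-1) - W (-1))‖ ^ 2 +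
      2 * Real.exp K * A * ∑ i : Fin n × Fin (M + 2),
        ⟪S.ι (v i.1), S.ι (U (gp M i.2) - W (gp M i.2))⟫_ℝ ^ 2 := by
  have cU := cont hU
  have cW := cont hW
  obtain ⟨r, hr, hm⟩ := mean (f := fun r => ‖U r - W r‖ ^ 2) (by fun_prop)
  obtain ⟨m, hm1, hm2⟩ := gp_near M hr
  have a1 := fw1 hK h hr.2 (by linarith [hr.1])
  have a2 := fw2 hK cU cW h
  have a3 := hE (U r - W r)
  have hc := S.c0
  have hE0 := Real.exp_pos K
  set P := ∫ x in (-1 : ℝ)..0, ‖U x - W x‖ ^ 2 with hP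
  set Q := ∑ i, (‖v i‖ * (‖S.A‖ + 2 * (‖S.B‖ * R))) ^ 2 with hQ
  set T := ∑ i : Fin n × Fin (M + 2),
        ⟪S.ι (v i.1), S.ι (U (gp M i.2) - W (gp M i.2))⟫_ℝ ^ 2 with hT
  have P0 : 0 ≤ P := (sq_nonneg _).trans hm
  have Q0 : 0 ≤ Q := Finset.sum_nonneg fun _ _ => sq_nonneg _
  have b1 : ∑ i, ⟪S.ι (v i), S.ι (U r - W r)⟫_ℝ ^ 2 ≤ 2 * T + 2 * ((r - gp M m) * (Q * P)) := by
    have c1 : ∑ i, ⟪S.ι (v i), S.ι (U (gp M m) - W (gp M m))⟫_ℝ ^ 2 ≤ T := by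
      rw [hT, Fintype.sum_prod_type]
      exact Finset.sum_le_sum fun i _ => Finset.single_le_sum
        (f := fun j => ⟪S.ι (v i), S.ι (U (gp M j) - W (gp M j))⟫_ℝ ^ 2)
        (fun _ _ => sq_nonneg _) (Finset.mem_univ m)
    have c2 : ∑ i, ⟪S.ι (v i), S.ι (U r - W r)⟫_ℝ ^ 2 ≤
        ∑ i, (2 * ⟪S.ι (v i), S.ι (U (gp M m) - W (gp M m))⟫_ℝ ^ 2 +
          2 * ((r - gp M m) * ((‖v i‖ * (‖S.A‖ + 2 * (‖S.B‖ * R))) ^ 2 * P))) := by
      refine Finset.sum_le_sum fun i _ => ?_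
      have d := grid hU hW (v i) (gp_mem M m).1 hm1 hr.2
      nlinarith [sq_nonneg (⟪S.ι (v i), S.ι (U r - W r)⟫_ℝ -
        2 * ⟪S.ι (v i), S.ι (U (gp M m) - W (gp M m))⟫_ℝ)]
    rw [Finset.sum_add_distrib, ← Finset.mul_sum, ← Finset.mul_sum, ← Finset.mul_sum,
      ← Finset.sum_mul] at c2
    linarith
  set D := ‖S.ι (U (-1) - W (-1))‖ ^ 2
  have b2 : Real.exp K * (S.c / (8 * Real.exp K ^ 2) * ‖U r - W r‖ ^ 2) ≤ 1 / 8 * D := by
    have e : Real.exp K * (S.c / (8 * Real.exp K ^ 2) * ‖U r - W r‖ ^ 2) =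
        S.c * ‖U r - W r‖ ^ 2 / (8 * Real.exp K) := by
      field_simp
    rw [e, div_le_iff₀ (by positivity)]
    have := mul_le_mul_of_nonneg_left hm hc.le
    linarith
  have b3 : Real.exp K * (A * (2 * ((r - gp M m) * (Q * P)))) ≤ 1 / 8 * D := by
    rw [div_le_iff₀ hc] at hM
    have g0 : 0 ≤ r - gp M m := sub_nonneg.2 hm1
    have g1 : (r - gp M m) * (16 * Real.exp K ^ 2 * A * Q) ≤ S.c := by
      have u1 := mul_le_mul_of_nonneg_left hM g0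
      have u2 := mul_le_mul_of_nonneg_right hm2 hc.le
      nlinarith [mul_nonneg g0 hc.le]
    have g2 := mul_le_mul_of_nonneg_right g1 P0
    refine le_of_mul_le_mul_left ?_ hE0
    nlinarith
  have b4 := mul_le_mul_of_nonneg_left b1 hA
  have b5 := mul_le_mul_of_nonneg_left (a3.trans (add_le_add le_rfl b4)) hE0.le
  nlinarith

end Cov

open Cov in
theorem cov : OfCov := by
  intro hF hE H V _ _ _ _ _ _ S R hι
  classical
  obtain ⟨K, hK, hFw⟩ := hF S R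
  have hc := S.c0
  obtain ⟨n, v, A, hA, hEh⟩ := hE hι (S.c / (8 * Real.exp K ^ 2)) (by positivity)
  obtain ⟨M, hM⟩ := exists_nat_ge
    (16 * Real.exp K ^ 2 * A * (∑ i, (‖v i‖ * (‖S.A‖ + 2 * (‖S.B‖ * R))) ^ 2) / S.c)
  have fw : ∀ {U W : ℝ → V}, Bd S R univ U → Bd S R univ W → Fw S K U W :=
    fun hU hW s t hst => hFw itv_univ hU hW s (mem_univ s) t (mem_univ t) hst
  obtain ⟨N, hN⟩ := H64.cover_iter (ι := {U : ℝ → V // Bd S R univ U})
    (α := Fin n × Fin (M + 2)) (fun U => ⟨fun t => U.1 (t + -1), U.2.shift_univ _⟩)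
    (fun U W => ‖S.ι (U.1 0 - W.1 0)‖ ^ 2) (fun U i => ⟪S.ι (v i.1), S.ι (U.1 (gp M i.2))⟫_ℝ)
    (D₀ := (‖S.ι‖ * (2 * |R|)) ^ 2) (A := 2 * Real.exp K * A)
    (Bc := (∑ i, ‖S.ι (v i)‖ ^ 2) * Real.exp K) (by positivity) (by positivity)
    (mul_nonneg (Finset.sum_nonneg fun _ _ => sq_nonneg _) (Real.exp_pos K).le)
    (fun U W => by
      refine pow_le_pow_left₀ (norm_nonneg _) ((S.ι.le_opNorm _).trans
        (mul_le_mul_of_nonneg_left ((norm_sub_le _ _).trans ?_) (norm_nonneg _))) 2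
      linarith [(U.2.2 0 (mem_univ _)).1, (W.2.2 0 (mem_univ _)).1, le_abs_self R])
    (fun U W => by
      have := squeeze hK hA v hEh hM U.2 W.2 (fw U.2 W.2)
      simpa only [zero_add, ← inner_sub_right, ← map_sub] using this)
    (fun U W i => by
      simp only [zero_add, ← inner_sub_right, ← map_sub]
      have h1 := fw1 hK (fw U.2 W.2) (gp_mem M i.2).1 (by linarith [(gp_mem M i.2).2])
      have h2 : ‖S.ι (v i.1)‖ ^ 2 ≤ ∑ i, ‖S.ι (v i)‖ ^ 2 := Finset.single_le_sum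
        (f := fun j => ‖S.ι (v j)‖ ^ 2) (fun _ _ => sq_nonneg _) (Finset.mem_univ i.1)
      rw [← sq_abs, mul_assoc]
      refine (pow_le_pow_left₀ (abs_nonneg _) (abs_real_inner_le_norm _ _) 2).trans ?_
      rw [mul_pow]
      exact mul_le_mul h2 h1 (sq_nonneg _) ((sq_nonneg _).trans h2))
  refine ⟨Option ((Fin n × Fin (M + 2) → Fin N) × (Fin n × Fin (M + 2) → Fin N)), inferInstance,
    ‖S.ι‖ * (2 * |R|) + 1, by positivity, fun k => ?_⟩
  obtain ⟨c, hc⟩ := hN (k + k)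
  refine ⟨fun U j => if h : Bd S R univ U then
    some (c ⟨U, h⟩ (Fin.castAdd k j), c ⟨U, h⟩ (Fin.natAdd k j)) else none,
    fun U W hU hW e => ?_⟩
  have e1 : c ⟨U, hU⟩ = c ⟨W, hW⟩ := by
    funext j
    have e2 := fun j => congrFun e j
    simp only [dif_pos hU, dif_pos hW, Option.some.injEq, Prod.mk.injEq] at e2
    exact Fin.addCases (motive := fun j => c ⟨U, hU⟩ j = c ⟨W, hW⟩ j)
      (fun j => (e2 j).1) (fun j => (e2 j).2) j
  have h1 := hc _ _ e1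
  rw [pow_add, ← sq, ← div_pow] at h1
  refine ((pow_le_pow_iff_left₀ (norm_nonneg _) (by positivity) two_ne_zero).1 h1).trans ?_
  gcongr
  linarith

end Pool.Agent.MP_ed9623_an.H77
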